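import Pool.Agent.Q227.AB.Defs

/-!
# Weight decompositions and the hard Lefschetz theorem: definitions
-/

open CategoryTheory MonoidalCategory Limits

universe v u w

namespace Pool.Agent.Q219.AL

open Pool.Agent.Q227.AB

variable {C : Type u} [Category.{v} C] [Preadditive C] [Linear ℚ C] [MonoidalCategory C]
  [SymmetricCategory C] [RightRigidCategory C] {K : Type w} [Field K] [CharZero K] {q : ℕ}

/-- `π M i` is the projector onto the part of weight `i` of the motive `M`: for each `M` these are
orthogonal idempotents, almost all zero, with sum `1`; they commute with all morphisms; `π M i` is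
the identity on `H^i(M)` and zero on the other cohomology groups. -/
structure IsWeightDecomposition (R : FrobeniusCohomology C K q) (π : ∀ M : C, ℤ → (M ⟶ M)) :
    Prop where
  nat : ∀ (M N : C) (f : M ⟶ N) (i : ℤ), π M i ≫ f = f ≫ π N i
  idem : ∀ (M : C) (i : ℤ), π M i ≫ π M i = π M i
  orth : ∀ (M : C) (i j : ℤ), i ≠ j → π M i ≫ π M j = 0
  finite : ∀ M : C, {i : ℤ | π M i ≠ 0}.Finite
  sum : ∀ M : C, ∑ᶠ i : ℤ, π M i = 𝟙 M
  one : ∀ (M : C) (i : ℤ), (R.H i).map (π M i) = 𝟙 ((R.H i).obj M)
  zero : ∀ (M : C) (i j : ℤ), i ≠ j → (R.H j).map (π M i) = 0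

/-- The morphism `f` is injective on `H^i`. -/
def InjOn (R : FrobeniusCohomology C K q) (i : ℤ) {M N : C} (f : M ⟶ N) : Prop :=
  Function.Injective ((R.H i).map f).hom

/-- The morphism `f` is surjective on `H^i`. -/
def SurjOn (R : FrobeniusCohomology C K q) (i : ℤ) {M N : C} (f : M ⟶ N) : Prop :=
  Function.Surjective ((R.H i).map f).hom

/-- The morphism `f` is bijective on `H^i`. -/
def BijOn (R : FrobeniusCohomology C K q) (i : ℤ) {M N : C} (f : M ⟶ N) : Prop :=
  Function.Bijective ((R.H i).map f).hom

/-- Morphisms which are injective (surjective, bijective) on all cohomology groups are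
monomorphisms (epimorphisms, isomorphisms). -/
def DetectsMorphisms (R : FrobeniusCohomology C K q) : Prop :=
  ∀ (M N : C) (f : M ⟶ N), ((∀ i, InjOn R i f) → Mono f) ∧ ((∀ i, SurjOn R i f) → Epi f) ∧
    ((∀ i, BijOn R i f) → IsIso f)

/-- There is a weight decomposition such that every morphism which is bijective on `H^i` has an
inverse on the parts of weight `i`: a morphism in the opposite direction such that the
composites are the projectors onto the parts of weight `i`, and which is zero on all other
cohomology groups. -/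
def DetectsWeights (R : FrobeniusCohomology C K q) : Prop :=
  ∃ π : ∀ M : C, ℤ → (M ⟶ M), IsWeightDecomposition R π ∧
    ∀ (M N : C) (f : M ⟶ N) (i : ℤ), BijOn R i f →
      ∃ g : N ⟶ M, f ≫ g = π M i ∧ g ≫ f = π N i ∧ ∀ j, j ≠ i → (R.H j).map g = 0

/-- Morphisms which are injective (bijective) on `H^0` are injective (bijective) on cycle classes,
that is, on `Hom(𝟙, -)`. -/
def DetectsCycles (R : FrobeniusCohomology C K q) : Prop :=
  ∀ (M N : C) (f : M ⟶ N),
    (InjOn R 0 f → Function.Injective fun x : 𝟙_ C ⟶ M => x ≫ f) ∧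
    (BijOn R 0 f → Function.Bijective fun x : 𝟙_ C ⟶ M => x ≫ f)

/-- `N j`, for all integers `j`, are objects with morphisms `N j ⟶ N k` for `j ≤ k` (a functor from
the ordered set of integers) which satisfy the hard Lefschetz theorem: `H^i(N j) → H^i(N k)` is
bijective if `i + j + k = d`. (For a smooth projective variety `X` of dimension `d` let `N j` be the
Tate twist `h(X)(j)` of its motive, and `N j ⟶ N k` the morphism given by the `k - j`-th power of
the class of an ample divisor. As `H^i(N j)` is `H^(i + 2 j)(X)(j)` and `i + 2 k = 2 d - (i + 2 j)`,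
this is the hard Lefschetz theorem, proved by Deligne.) -/
def HardLefschetz (R : FrobeniusCohomology C K q) (N : ℤ ⥤ C) (d : ℤ) : Prop :=
  ∀ (i j k : ℤ) (h : j ≤ k), i + j + k = d → BijOn R i (N.map (homOfLE h))

/-- The conclusion of the standard conjecture of Lefschetz type: if `i + j + k = d`, there is a
morphism `g : N k ⟶ N j` which induces the inverse of `H^i(N j) → H^i(N k)` and is zero on the other
cohomology groups. -/
def LefschetzType (R : FrobeniusCohomology C K q) (N : ℤ ⥤ C) (d : ℤ) : Prop :=
  ∀ (i j k : ℤ) (h : j ≤ k), i + j + k = d → ∃ g : N.obj k ⟶ N.obj j,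
    (R.H i).map (N.map (homOfLE h)) ≫ (R.H i).map g = 𝟙 _ ∧
    (R.H i).map g ≫ (R.H i).map (N.map (homOfLE h)) = 𝟙 _ ∧ ∀ m, m ≠ i → (R.H m).map g = 0

/-- The hard Lefschetz theorem for cycle classes: `Hom(𝟙, N j) → Hom(𝟙, N k)` is bijective if
`j + k = d` and `j ≤ k`. -/
def CycleLefschetz (N : ℤ ⥤ C) (d : ℤ) : Prop :=
  ∀ (j k : ℤ) (h : j ≤ k), j + k = d →
    Function.Bijective fun x : 𝟙_ C ⟶ N.obj j => x ≫ N.map (homOfLE h)

end Pool.Agent.Q219.AL
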