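import Pool.Agent.Q219.AL.Lef

/-!
# Independence of the prime
-/

open CategoryTheory MonoidalCategory Limits Polynomial

universe v u w

set_option linter.unusedSectionVars false

namespace Pool.Agent.Q219.AL

open Pool.Agent.Q227.AB Pool.Agent.Q227.AB.FrobeniusCohomology

variable {C : Type u} [Category.{v} C] [Abelian C] [Linear ℚ C]
    [MonoidalCategory C] [SymmetricCategory C] [RightRigidCategory C] [MonoidalPreadditive C]
    {K : Type w} [Field K] [CharZero K] [IsAlgClosed K] {q : ℕ} {R : FrobeniusCohomology C K q}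
    {K' : Type w} [Field K'] [CharZero K'] [IsAlgClosed K'] {R' : FrobeniusCohomology C K' q}
    {π π' : ∀ M : C, ℤ → (M ⟶ M)}

theorem exists_weight (R : FrobeniusCohomology C K q) (hq : 1 < q) :
    ∃ π : ∀ M : C, ℤ → (M ⟶ M), IsWeightDecomposition R π := by
  obtain ⟨π', a1, a2, a3, a4, a5, a6⟩ := R.weight_decomposition hq
  exact ⟨π', a1, a2, a3, fun M => (a4 M).1, fun M => (a4 M).2, a5, a6⟩

/-- The part of weight `i` is annihilated by a polynomial of weight `i` in Frobenius. -/
theorem exists_pol (hq : 1 < q) (hπ : IsWeightDecomposition R π) (M : C) (i : ℤ) :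
    ∃ Q : ℚ[X], OfWeight q i Q ∧ π M i ≫ R.ev M Q = 0 := by
  classical
  obtain ⟨D⟩ := exists_piece hπ M i
  obtain ⟨ρ, Q, h1, h2, h3, h4, -⟩ := R.exists_decomp hq D.P
  refine ⟨Q i, h3 i, ?_⟩
  have h5 : ∀ j ∈ R.degs D.P, j = i := by
    intro j hj
    by_contra hc
    have h6 := piece_zero R D (hπ.zero M i j (fun h => hc h.symm))
    exact (R.bounded D.P).mem_toFinset.1 hj h6
  have h6 : ρ i = 𝟙 D.P := by
    rw [← h2]
    by_cases hi : i ∈ R.degs D.P
    · rw [Finset.sum_eq_single_of_mem i hi fun j hj hji => absurd (h5 j hj) hji]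
    · rw [h1 i hi, Finset.sum_eq_zero]
      intro j hj
      exact absurd ((h5 j hj) ▸ hj) hi
  have h7 : R.ev D.P (Q i) = 0 := by
    rw [← h4 i, h6, Category.id_comp]
  rw [← D.rs, Category.assoc, R.ev_naturality, h7, Limits.zero_comp, Limits.comp_zero]

theorem ev_eq (h : R'.Frob = R.Frob) (M : C) (P : ℚ[X]) : R'.ev M P = R.ev M P := by
  unfold FrobeniusCohomology.ev FrobeniusCohomology.frE FrobeniusCohomology.fr
  rw [h]

theorem weight_orth (hq : 1 < q) (h : R'.Frob = R.Frob) (hπ : IsWeightDecomposition R π)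
    (hπ' : IsWeightDecomposition R' π') (M : C) {i j : ℤ} (hij : i ≠ j) :
    π M i ≫ π' M j = 0 := by
  obtain ⟨Q, hQ, hQ0⟩ := exists_pol hq hπ M i
  obtain ⟨Q', hQ', hQ0'⟩ := exists_pol hq hπ' M j
  obtain ⟨a, b, hab⟩ := hQ.coprime hq hij hQ'
  rw [ev_eq h] at hQ0'
  have h1 : (π M i ≫ π' M j) ≫ R.ev M Q = 0 := by
    rw [Category.assoc, R.ev_naturality, ← Category.assoc, hQ0, Limits.zero_comp]
  have h2 : (π M i ≫ π' M j) ≫ R.ev M Q' = 0 := by
    rw [Category.assoc, hQ0', Limits.comp_zero]
  calc π M i ≫ π' M j = (π M i ≫ π' M j) ≫ R.ev M (a * Q + b * Q') := by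
        rw [hab, R.ev_one, Category.comp_id]
    _ = 0 := by
        rw [R.ev_add, Preadditive.comp_add, mul_comm a, mul_comm b, R.ev_mul, R.ev_mul,
          ← Category.assoc, h1, ← Category.assoc, h2, Limits.zero_comp, Limits.zero_comp, add_zero]

theorem weight_unique (hq : 1 < q) (h : R'.Frob = R.Frob) (hπ : IsWeightDecomposition R π)
    (hπ' : IsWeightDecomposition R' π') (M : C) (i : ℤ) : π M i = π' M i := by
  classical
  have h1 : π M i = π M i ≫ π' M i := by
    calc π M i = π M i ≫ ∑ᶠ j, π' M j := by rw [hπ'.sum, Category.comp_id]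
      _ = π M i ≫ ∑ j ∈ insert i (hπ'.finite M).toFinset, π' M j := by
          rw [finsum_eq_sum_of_support_subset]
          intro j hj
          simp only [Finset.coe_insert, Set.Finite.coe_toFinset]
          exact Or.inr hj
      _ = π M i ≫ π' M i := by
          rw [Preadditive.comp_sum]
          exact Finset.sum_eq_single_of_mem i (Finset.mem_insert_self _ _)
            fun j _ hji => weight_orth hq h hπ hπ' M (fun h => hji h.symm)
  have h2 : π' M i = π M i ≫ π' M i := by
    calc π' M i = (∑ᶠ j, π M j) ≫ π' M i := by rw [hπ.sum, Category.id_comp]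
      _ = (∑ j ∈ insert i (hπ.finite M).toFinset, π M j) ≫ π' M i := by
          rw [finsum_eq_sum_of_support_subset]
          intro j hj
          simp only [Finset.coe_insert, Set.Finite.coe_toFinset]
          exact Or.inr hj
      _ = π M i ≫ π' M i := by
          rw [Preadditive.sum_comp]
          exact Finset.sum_eq_single_of_mem i (Finset.mem_insert_self _ _)
            fun j _ hji => weight_orth hq h hπ hπ' M hji
  rw [h1, ← h2]

/-- Bijectivity on cohomology does not depend on the prime. -/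
theorem bijective_of (hq : 1 < q) (h : R'.Frob = R.Frob) {M N : C} (f : M ⟶ N) (i : ℤ)
    (hf : Function.Bijective ((R.H i).map f).hom) :
    Function.Bijective ((R'.H i).map f).hom := by
  obtain ⟨π, hπ⟩ := exists_weight R hq
  obtain ⟨π', hπ'⟩ := exists_weight R' hq
  obtain ⟨g, h1, h2, -⟩ := exists_inverse hq hπ f i hf
  rw [weight_unique hq h hπ hπ'] at h1 h2
  have h3 : (R'.H i).map f ≫ (R'.H i).map g = 𝟙 _ := by
    rw [← Functor.map_comp, h1, hπ'.one]
  have h4 : (R'.H i).map g ≫ (R'.H i).map f = 𝟙 _ := by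
    rw [← Functor.map_comp, h2, hπ'.one]
  have h5 : ∀ x, ((R'.H i).map g).hom (((R'.H i).map f).hom x) = x := fun x =>
    congrArg (fun g => g.hom x) h3
  have h6 : ∀ x, ((R'.H i).map f).hom (((R'.H i).map g).hom x) = x := fun x =>
    congrArg (fun g => g.hom x) h4
  exact ⟨Function.LeftInverse.injective h5, Function.RightInverse.surjective h6⟩

end Pool.Agent.Q219.AL
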