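import Pool.Agent.Q227.AB.Kim3
import Pool.Agent.Q219.AL.Defs

/-!
# If the category is abelian then isomorphisms on cohomology are isomorphisms
-/

open CategoryTheory MonoidalCategory Limits

universe v u w

set_option linter.unusedSectionVars false

namespace Pool.Agent.Q219.AL

open Pool.Agent.Q227.AB Pool.Agent.Q227.AB.FrobeniusCohomology

variable {C : Type u} [Category.{v} C] [Abelian C] [Linear ℚ C]
    [MonoidalCategory C] [SymmetricCategory C] [RightRigidCategory C] [MonoidalPreadditive C]
    {K : Type w} [Field K] [CharZero K] [IsAlgClosed K] {q : ℕ} (R : FrobeniusCohomology C K q)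

lemma betti_le_of {M N : C}
    (h : ∀ i, Module.finrank K ((R.H i).obj M) ≤ Module.finrank K ((R.H i).obj N)) :
    R.betti M ≤ R.betti N := by
  classical
  unfold FrobeniusCohomology.betti
  rw [finsum_eq_sum_of_support_subset (s := (R.finrank_support M).toFinset ∪
      (R.finrank_support N).toFinset) _ (by intro i hi; simpa using Or.inl hi),
    finsum_eq_sum_of_support_subset (s := (R.finrank_support M).toFinset ∪
      (R.finrank_support N).toFinset) _ (by intro i hi; simpa using Or.inr hi)]
  exact Finset.sum_le_sum fun i _ => h i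

lemma inj_factor {i : ℤ} {M I N : C} (p : M ⟶ I) (e : I ⟶ N)
    (h : Function.Injective ((R.H i).map (p ≫ e)).hom) :
    Module.finrank K ((R.H i).obj M) ≤ Module.finrank K ((R.H i).obj I) := by
  have := R.finite i I
  have := R.finite i M
  refine LinearMap.finrank_le_finrank_of_injective (f := ((R.H i).map p).hom) ?_
  intro x y hxy
  apply h
  rw [Functor.map_comp]
  exact congrArg ((R.H i).map e).hom hxy

lemma surj_factor {i : ℤ} {M I N : C} (p : M ⟶ I) (e : I ⟶ N)
    (h : Function.Surjective ((R.H i).map (p ≫ e)).hom) :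
    Module.finrank K ((R.H i).obj N) ≤ Module.finrank K ((R.H i).obj I) := by
  have := R.finite i I
  have := R.finite i N
  refine LinearMap.finrank_le_finrank_of_surjective (f := ((R.H i).map e).hom) ?_
  intro y
  obtain ⟨x, hx⟩ := h y
  refine ⟨((R.H i).map p).hom x, ?_⟩
  rw [← hx, Functor.map_comp]
  rfl

/-- A morphism which is injective on cohomology is a monomorphism. -/
theorem mono_of (hq : 1 < q) {M N : C} (f : M ⟶ N)
    (h : ∀ i, Function.Injective ((R.H i).map f).hom) : Mono f := by
  have h1 : R.betti M ≤ R.betti (image f) := betti_le_of R fun i =>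
    inj_factor R (factorThruImage f) (image.ι f) (by rw [image.fac]; exact h i)
  have h2 : Mono (factorThruImage f) := R.mono_of_betti_epi hq _ h1
  rw [← image.fac f]
  exact mono_comp _ _

/-- A morphism which is surjective on cohomology is an epimorphism. -/
theorem epi_of (hq : 1 < q) {M N : C} (f : M ⟶ N)
    (h : ∀ i, Function.Surjective ((R.H i).map f).hom) : Epi f := by
  have h1 : R.betti N ≤ R.betti (image f) := betti_le_of R fun i =>
    surj_factor R (factorThruImage f) (image.ι f) (by rw [image.fac]; exact h i)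
  have h2 : IsIso (image.ι f) := R.isIso_of_betti_mono hq _ h1
  rw [← image.fac f]
  exact epi_comp _ _

/-- A morphism which is bijective on cohomology is an isomorphism. -/
theorem iso_of (hq : 1 < q) {M N : C} (f : M ⟶ N)
    (h : ∀ i, Function.Bijective ((R.H i).map f).hom) : IsIso f := by
  have := mono_of R hq f fun i => (h i).1
  have := epi_of R hq f fun i => (h i).2
  exact isIso_of_mono_of_epi f

/-- One degree. -/
structure Piece (M : C) (π : M ⟶ M) (i : ℤ) where
  P : C
  r : M ⟶ P
  s : P ⟶ M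
  rs : r ≫ s = π
  sr : s ≫ r = 𝟙 P

lemma Piece.s_pi {i : ℤ} {M : C} {π : M ⟶ M} (D : Piece M π i) : D.s ≫ π = D.s := by
  have h : D.s ≫ D.r ≫ D.s = D.s := by rw [← Category.assoc, D.sr, Category.id_comp]
  exact (congrArg (fun e => D.s ≫ e) D.rs).symm.trans h

lemma Piece.pi_r {i : ℤ} {M : C} {π : M ⟶ M} (D : Piece M π i) : π ≫ D.r = D.r := by
  have h : (D.r ≫ D.s) ≫ D.r = D.r := by rw [Category.assoc, D.sr, Category.comp_id]
  exact (congrArg (fun e => e ≫ D.r) D.rs).symm.trans h

lemma piece_zero {i j : ℤ} {M : C} {π : M ⟶ M} (D : Piece M π i) (h : (R.H j).map π = 0) :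
    Subsingleton ((R.H j).obj D.P) := by
  have := R.additive j
  have h5 : 𝟙 D.P = D.s ≫ π ≫ D.r := by
    rw [D.pi_r, D.sr]
  have h6 : 𝟙 ((R.H j).obj D.P) = 0 := by
    rw [← CategoryTheory.Functor.map_id, h5, Functor.map_comp, Functor.map_comp, h, zero_comp,
      comp_zero]
  exact ModuleCat.subsingleton_of_isZero ((IsZero.iff_id_eq_zero _).2 h6)

lemma piece_bij {i : ℤ} {M : C} {π : M ⟶ M} (D : Piece M π i)
    (h : (R.H i).map π = 𝟙 ((R.H i).obj M)) :
    Function.Bijective ((R.H i).map D.s).hom ∧ Function.Bijective ((R.H i).map D.r).hom := by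
  have h1 : (R.H i).map D.r ≫ (R.H i).map D.s = 𝟙 _ := by
    rw [← Functor.map_comp, D.rs, h]
  have h2 : (R.H i).map D.s ≫ (R.H i).map D.r = 𝟙 _ := by
    rw [← Functor.map_comp, D.sr, CategoryTheory.Functor.map_id]
  have h3 : ∀ x, ((R.H i).map D.s).hom (((R.H i).map D.r).hom x) = x := fun x =>
    congrArg (fun g => g.hom x) h1
  have h4 : ∀ x, ((R.H i).map D.r).hom (((R.H i).map D.s).hom x) = x := fun x =>
    congrArg (fun g => g.hom x) h2
  exact ⟨⟨Function.LeftInverse.injective h4, Function.RightInverse.surjective h3⟩,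
    ⟨Function.LeftInverse.injective h3, Function.RightInverse.surjective h4⟩⟩

section weights

variable {π : ∀ M : C, ℤ → (M ⟶ M)}

variable {R}

lemma exists_piece (hπ : IsWeightDecomposition R π) (M : C) (i : ℤ) : Nonempty (Piece M (π M i) i) := by
  obtain ⟨P, r, s, h1, h2⟩ := split_idem (π M i) (hπ.idem M i)
  exact ⟨⟨P, r, s, h1, h2⟩⟩

/-- The part of weight `i` of a morphism. -/
def part {M N : C} {i : ℤ} (D : Piece M (π M i) i) (D' : Piece N (π N i) i) (f : M ⟶ N) :
    D.P ⟶ D'.P := D.s ≫ f ≫ D'.r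

lemma r_part (hπ : IsWeightDecomposition R π) {M N : C} {i : ℤ} (D : Piece M (π M i) i)
    (D' : Piece N (π N i) i) (f : M ⟶ N) : D.r ≫ part D D' f = f ≫ D'.r := by
  rw [part, ← Category.assoc, D.rs, ← Category.assoc, hπ.nat, Category.assoc, D'.pi_r]

lemma part_s (hπ : IsWeightDecomposition R π) {M N : C} {i : ℤ} (D : Piece M (π M i) i)
    (D' : Piece N (π N i) i) (f : M ⟶ N) : part D D' f ≫ D'.s = D.s ≫ f := by
  rw [part, Category.assoc, Category.assoc, D'.rs, ← hπ.nat, ← Category.assoc, D.s_pi]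

lemma map_part {M N : C} {i : ℤ} (D : Piece M (π M i) i) (D' : Piece N (π N i) i) (f : M ⟶ N) :
    ((R.H i).map (part D D' f)).hom =
      ((R.H i).map D'.r).hom ∘ₗ ((R.H i).map f).hom ∘ₗ ((R.H i).map D.s).hom := by
  rw [part, Functor.map_comp, Functor.map_comp]
  rfl

lemma part_injective (hπ : IsWeightDecomposition R π) {M N : C} {i : ℤ} (D : Piece M (π M i) i)
    (D' : Piece N (π N i) i) (f : M ⟶ N) (h : Function.Injective ((R.H i).map f).hom) (j : ℤ) :
    Function.Injective ((R.H j).map (part D D' f)).hom := by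
  by_cases hj : i = j
  · subst hj
    rw [map_part]
    exact (piece_bij R D' (hπ.one N i)).2.1.comp (h.comp (piece_bij R D (hπ.one M i)).1.1)
  · have := piece_zero R D (hπ.zero M i j hj)
    exact Function.injective_of_subsingleton _

lemma part_surjective (hπ : IsWeightDecomposition R π) {M N : C} {i : ℤ} (D : Piece M (π M i) i)
    (D' : Piece N (π N i) i) (f : M ⟶ N) (h : Function.Surjective ((R.H i).map f).hom) (j : ℤ) :
    Function.Surjective ((R.H j).map (part D D' f)).hom := by
  by_cases hj : i = j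
  · subst hj
    rw [map_part]
    exact (piece_bij R D' (hπ.one N i)).2.2.comp (h.comp (piece_bij R D (hπ.one M i)).1.2)
  · have := piece_zero R D' (hπ.zero N i j hj)
    intro y
    exact ⟨0, Subsingleton.elim _ _⟩

/-- One degree: injective on cohomology implies injective on the part of weight `i`. -/
theorem cancel_of (hq : 1 < q) (hπ : IsWeightDecomposition R π) {M N : C} (f : M ⟶ N) (i : ℤ)
    (h : Function.Injective ((R.H i).map f).hom) {T : C} (x : T ⟶ M) (hx : x ≫ f = 0) :
    x ≫ π M i = 0 := by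
  obtain ⟨D⟩ := exists_piece hπ M i
  obtain ⟨D'⟩ := exists_piece hπ N i
  have := mono_of R hq (part D D' f) (part_injective hπ D D' f h)
  have h1 : x ≫ D.r = 0 := by
    rw [← cancel_mono (part D D' f), Category.assoc, r_part hπ, ← Category.assoc, hx, zero_comp,
      zero_comp]
  rw [← D.rs, ← Category.assoc, h1, zero_comp]

/-- One degree: bijective on cohomology implies bijective on the part of weight `i`. -/
theorem exists_inverse (hq : 1 < q) (hπ : IsWeightDecomposition R π) {M N : C} (f : M ⟶ N) (i : ℤ)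
    (h : Function.Bijective ((R.H i).map f).hom) :
    ∃ g : N ⟶ M, f ≫ g = π M i ∧ g ≫ f = π N i ∧ ∀ j, j ≠ i → (R.H j).map g = 0 := by
  obtain ⟨D⟩ := exists_piece hπ M i
  obtain ⟨D'⟩ := exists_piece hπ N i
  have := mono_of R hq (part D D' f) (part_injective hπ D D' f h.1)
  have := epi_of R hq (part D D' f) (part_surjective hπ D D' f h.2)
  have := isIso_of_mono_of_epi (part D D' f)
  refine ⟨D'.r ≫ inv (part D D' f) ≫ D.s, ?_, ?_, fun j hj => ?_⟩
  · rw [← Category.assoc, ← r_part hπ D D' f, Category.assoc, IsIso.hom_inv_id_assoc, D.rs]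
  · rw [Category.assoc, Category.assoc, ← part_s hπ D D' f, IsIso.inv_hom_id_assoc, D'.rs]
  · rw [← D'.pi_r, Category.assoc, Functor.map_comp, hπ.zero N i j hj.symm, zero_comp]

lemma unit_weight (hq : 1 < q) (hπ : IsWeightDecomposition R π) : π (𝟙_ C) 0 = 𝟙 (𝟙_ C) := by
  rcases R.idem_unit _ (hπ.idem (𝟙_ C) 0) with h | h
  · exfalso
    have := R.additive 0
    have h1 := hπ.one (𝟙_ C) 0
    rw [h, Functor.map_zero] at h1
    have h2 : Subsingleton ((R.H 0).obj (𝟙_ C)) :=
      ModuleCat.subsingleton_of_isZero ((IsZero.iff_id_eq_zero _).2 h1.symm)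
    have h3 := R.m_unit hq
    have h4 : R.m 0 (𝟙_ C) 1 = 0 := by
      unfold FrobeniusCohomology.m mult
      exact Module.finrank_zero_of_subsingleton
    omega
  · exact h

lemma unit_comp (hq : 1 < q) (hπ : IsWeightDecomposition R π) {M : C} (x : 𝟙_ C ⟶ M) : x ≫ π M 0 = x := by
  rw [← hπ.nat, unit_weight hq hπ, Category.id_comp]

theorem hom_injective (hq : 1 < q) (hπ : IsWeightDecomposition R π) {M N : C} (f : M ⟶ N)
    (h : Function.Injective ((R.H 0).map f).hom) :
    Function.Injective (fun x : 𝟙_ C ⟶ M => x ≫ f) := by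
  intro x y hxy
  have h1 : (x - y) ≫ f = 0 := by
    rw [Preadditive.sub_comp, sub_eq_zero]
    exact hxy
  have h2 := cancel_of hq hπ f 0 h (x - y) h1
  rw [unit_comp hq hπ, sub_eq_zero] at h2
  exact h2

theorem hom_bijective (hq : 1 < q) (hπ : IsWeightDecomposition R π) {M N : C} (f : M ⟶ N)
    (h : Function.Bijective ((R.H 0).map f).hom) :
    Function.Bijective (fun x : 𝟙_ C ⟶ M => x ≫ f) := by
  refine ⟨hom_injective hq hπ f h.1, fun y => ?_⟩
  obtain ⟨g, -, hg, -⟩ := exists_inverse hq hπ f 0 h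
  refine ⟨y ≫ g, ?_⟩
  change (y ≫ g) ≫ f = y
  rw [Category.assoc, hg, unit_comp hq hπ]

end weights

end Pool.Agent.Q219.AL
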